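import Pool.Agent.MP_6f21ce_an.Condense

set_option autoImplicit false

namespace Pool.Agent.Results.MP_6f21ce_an.Condensation

open Set Filter Pool.Agent.MP_6f21ce_an

lemma exists_gamma : ∃ γ : ℝ, 0 < γ ∧ (∀ i j : ℤ, (i : ℝ) + j * α ≠ γ) ∧
    (∀ i j : ℤ, (i : ℝ) + j * α ≠ γ + β) := by
  let S : Set ℝ := (⋃ q : ℤ × ℤ, {(q.1 : ℝ) + q.2 * α}) ∪ (⋃ q : ℤ × ℤ, {(q.1 : ℝ) + q.2 * α - β})
  have hS : S.Countable :=
    (Set.countable_iUnion fun _ => Set.countable_singleton _).union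
      (Set.countable_iUnion fun _ => Set.countable_singleton _)
  have hun : ¬ (Ioi (0 : ℝ)).Countable := by
    intro hc
    have h2 := Cardinal.mk_Ioi_real 0
    have h3 := (Cardinal.le_aleph0_iff_set_countable.2 hc)
    rw [h2] at h3
    exact absurd h3 (not_le.2 Cardinal.aleph0_lt_continuum)
  obtain ⟨γ, hγ, hγ2⟩ : ∃ γ, γ ∈ Ioi (0 : ℝ) ∧ γ ∉ S := by
    by_contra hcon
    push Not at hcon
    exact hun (hS.mono hcon)
  refine ⟨γ, hγ, fun i j h => hγ2 (Or.inl ?_), fun i j h => hγ2 (Or.inr ?_)⟩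
  · exact Set.mem_iUnion.2 ⟨(i, j), h.symm⟩
  · refine Set.mem_iUnion.2 ⟨(i, j), ?_⟩
    show γ = (i : ℝ) + j * α - β
    linarith

/-- For every `ε > 0` there is an analytic IFS with super-exponential condensation (failure of the
exponential separation condition) and without exact overlaps that is not sub-conjugated to a
self-similar IFS; moreover its maps have no common fixed point in `[0,1]`. -/
theorem result : ∀ ε : ℝ, 0 < ε → ∃ f : Fin 4 → ℝ → ℝ,
    IsAnalyticIFS ε f ∧ ¬ ESC f ∧ ¬ HasExactOverlap f ∧ ¬ SubConjugated f ∧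
    ¬ ∃ x ∈ Icc (0 : ℝ) 1, ∀ i, f i x = x := by
  intro ε hε
  obtain ⟨γ, hγ, hγ1, hγ2⟩ := exists_gamma
  have hα := alpha_pos
  have hβ : 0 < β := btail_pos 0
  set κ : ℝ := 1 / (2 * (1 + 2 * ε)) with hκ
  have hκ0 : 0 < κ := by rw [hκ]; positivity
  have hκ1 : κ ≤ 1 / 2 := by
    rw [hκ, div_le_div_iff₀ (by positivity) (by norm_num)]
    linarith
  have hI : Indep 1 α γ (γ + β) := by
    refine ⟨?_, ?_, ?_, ?_⟩
    · intro i j h
      exact indep_one i j (by rwa [mul_one] at h)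
    · intro i j h
      exact hγ1 i j (by rwa [mul_one] at h)
    · intro i j h
      exact hγ2 i j (by rwa [mul_one] at h)
    · intro i j h
      apply beta_indep (-i) (-j)
      push_cast
      linarith
  have hI' : Indep α 1 γ (γ + β) := by
    refine ⟨?_, ?_, ?_, ?_⟩
    · intro i j h
      have := indep_one j i (by linarith)
      exact ⟨this.2, this.1⟩
    · intro i j h
      exact hγ1 j i (by linarith)
    · intro i j h
      exact hγ2 j i (by linarith)
    · intro i j h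
      apply beta_indep (-j) (-i)
      push_cast
      linarith
  have hR : 0 < 1 + 2 * ε := by positivity
  have hev : ∀ᶠ L : ℝ in atTop, 0 < L ∧ Good (par κ 1 α γ (γ + β) L) ∧
      Real.exp (-(α * L)) < 1 / 36 ∧ Real.exp (-(α * L)) < ε / (6 * (1 + 2 * ε)) ∧
      Real.exp (-(γ * L)) < 1 / 6 ∧ Real.exp (-(γ * L)) < ε / (2 * (1 + 2 * ε)) ∧
      Real.exp (-((γ + β) * L)) < 1 / 6 ∧
      Real.exp (-((γ + β) * L)) < ε / (2 * (1 + 2 * ε)) := by
    filter_upwards [eventually_gt_atTop 0,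
      good_par hκ0 hκ1 one_pos hα hγ (add_pos hγ hβ),
      exp_small hα (show (0 : ℝ) < 1 / 36 by norm_num),
      exp_small hα (show (0 : ℝ) < ε / (6 * (1 + 2 * ε)) by positivity),
      exp_small hγ (show (0 : ℝ) < 1 / 6 by norm_num),
      exp_small hγ (show (0 : ℝ) < ε / (2 * (1 + 2 * ε)) by positivity),
      exp_small (add_pos hγ hβ) (show (0 : ℝ) < 1 / 6 by norm_num),
      exp_small (add_pos hγ hβ) (show (0 : ℝ) < ε / (2 * (1 + 2 * ε)) by positivity)]
      with L h1 h2 h3 h4 h5 h6 h7 h8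
    exact ⟨h1, h2, h3, h4, h5, h6, h7, h8⟩
  obtain ⟨L₀, hL₀⟩ := Filter.eventually_atTop.1 hev
  obtain ⟨L, hL, hgen⟩ := exists_generic hκ0 hκ1 one_pos hα hγ (add_pos hγ hβ) hI hI' L₀
  obtain ⟨hLpos, hP, hb1, hb2, hc1, hc2, hd1, hd2⟩ := hL₀ L hL.le
  refine ⟨fm (par κ 1 α γ (γ + β) L), ?_, not_ESC hLpos hγ (add_pos hγ hβ) hP,
    not_overlap hP hgen, not_subConj hP hgen, ?_⟩
  · refine isIFS hε hκ hP rfl hb1 ?_ hc1 ?_ hd1 ?_
    · show 6 * (1 + 2 * ε) * Real.exp (-(α * L)) < ε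
      rw [lt_div_iff₀ (by positivity)] at hb2
      linarith
    · show 2 * (1 + 2 * ε) * Real.exp (-(γ * L)) < ε
      rw [lt_div_iff₀ (by positivity)] at hc2
      linarith
    · show 2 * (1 + 2 * ε) * Real.exp (-((γ + β) * L)) < ε
      rw [lt_div_iff₀ (by positivity)] at hd2
      linarith
  · rintro ⟨x, hx, hfix⟩
    have h0 : (par κ 1 α γ (γ + β) L).a * x = x := hfix 0
    have ha := hP.a1
    have hx0 : x = 0 := by
      have h1 : ((par κ 1 α γ (γ + β) L).a - 1) * x = 0 := by linarith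
      rcases mul_eq_zero.1 h1 with h2 | h2
      · linarith
      · exact h2
    have h1 : gg κ ((par κ 1 α γ (γ + β) L).b * gg κ x) = x := hfix 1
    rw [hx0] at h1
    have h2 : gg κ 0 = 1 := by simp [gg]
    rw [h2, mul_one] at h1
    have hb : (par κ 1 α γ (γ + β) L).b ∈ Icc (0 : ℝ) 1 :=
      ⟨hP.b0.le, hP.b1.trans (by norm_num)⟩
    have h3 := gg_ge hκ0 hκ1 hb
    rw [h1] at h3
    linarith [hP.b1]

end Pool.Agent.Results.MP_6f21ce_an.Condensation
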